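import Mathlib
import Pool.Agent.Helper50.Rec.Basic

/-!
# REC-3: inverse theorem for the second seminorm
-/

open MeasureTheory Polynomial Finset Filter Topology
open scoped BigOperators ComplexConjugate

namespace Pool.Agent.Helper50.Rec

/-! ### finite Fourier analysis -/

lemma inv_ec_nat_mul (k : ℕ) (t : ℝ) : ec (k * t) = ec t ^ k := by
  unfold ec
  rw [← Complex.exp_nat_mul]
  congr 1
  push_cast
  ring

lemma inv_ec_eq_one {t : ℝ} (h : ec t = 1) : ∃ m : ℤ, t = m := by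
  unfold ec at h
  rw [Complex.exp_eq_one_iff] at h
  obtain ⟨m, hm⟩ := h
  refine ⟨m, ?_⟩
  have h1 : (2 * (Real.pi : ℂ) * Complex.I) ≠ 0 := by
    simp [Real.pi_ne_zero]
  have h2 : (t : ℂ) * (2 * (Real.pi : ℂ) * Complex.I) =
      (m : ℂ) * (2 * (Real.pi : ℂ) * Complex.I) := by
    rw [← hm]; ring
  have h3 := mul_right_cancel₀ h1 h2
  exact_mod_cast h3

lemma inv_sum_ec (n : ℤ) (L : ℕ) (hL : 0 < L) (hn : |n| < L) :
    ∑ k ∈ range L, ec (n * (k / L)) = if n = 0 then (L : ℂ) else 0 := by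
  split_ifs with h0
  · subst h0
    simp [ec_zero]
  · have h1 : ∀ k ∈ range L, ec (n * (k / L)) = ec (n / L) ^ k := by
      intro k _
      rw [← inv_ec_nat_mul]
      congr 1
      ring
    rw [Finset.sum_congr rfl h1]
    have hne : ec (n / L) ≠ 1 := by
      intro h
      obtain ⟨m, hm⟩ := inv_ec_eq_one h
      have hL' : (L : ℝ) ≠ 0 := by positivity
      rw [div_eq_iff hL'] at hm
      have hm' : n = m * L := by exact_mod_cast hm
      have hm0 : m ≠ 0 := by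
        rintro rfl
        simp at hm'
        exact h0 hm'
      rw [hm', abs_mul] at hn
      have h3 : (1 : ℤ) ≤ |m| := Int.one_le_abs hm0
      have h4 : |(L : ℤ)| = L := abs_of_nonneg (by positivity)
      rw [h4] at hn
      nlinarith
    rw [geom_sum_eq hne, ← inv_ec_nat_mul]
    have h5 : ((L : ℝ) * (n / L)) = (n : ℝ) := by
      field_simp
    rw [h5, ec_int]
    simp

lemma inv_fourier {α : Type} [DecidableEq α] (P : Finset α) (n : α → ℤ) (c : α → ℂ) (L : ℕ)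
    (hL : 0 < L) (hn : ∀ p ∈ P, ∀ q ∈ P, |n p - n q| < L)
    (hc : ∀ p ∈ P, ∀ q ∈ P, n p = n q → c p = c q) :
    ∑ k ∈ range L, ‖∑ p ∈ P, ec (n p * (k / L)) * c p‖ ^ 2 =
      L * ∑ p ∈ P, ‖c p‖ ^ 2 * ((P.filter (fun q => n p = n q)).card : ℝ) := by
  have hC : ((∑ k ∈ range L, ‖∑ p ∈ P, ec (n p * (k / L)) * c p‖ ^ 2 : ℝ) : ℂ) =
      ((L * ∑ p ∈ P, ‖c p‖ ^ 2 * ((P.filter (fun q => n p = n q)).card : ℝ) : ℝ) : ℂ) := by
    rw [Complex.ofReal_sum]
    have h1 : ∀ k ∈ range L, ((‖∑ p ∈ P, ec (n p * (k / L)) * c p‖ ^ 2 : ℝ) : ℂ) =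
        ∑ p ∈ P, ∑ q ∈ P, c p * conj (c q) * ec (((n p - n q : ℤ) : ℝ) * (k / L)) := by
      intro k _
      rw [← Complex.normSq_eq_norm_sq, ← Complex.mul_conj, map_sum, Finset.sum_mul_sum]
      refine Finset.sum_congr rfl fun p _ => Finset.sum_congr rfl fun q _ => ?_
      rw [map_mul, ← ec_neg]
      have : ec (((n p - n q : ℤ) : ℝ) * (k / L)) =
          ec (n p * (k / L)) * ec (-(n q * (k / L))) := by
        rw [← ec_add]
        congr 1
        push_cast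
        ring
      rw [this]
      ring
    rw [Finset.sum_congr rfl h1, Finset.sum_comm]
    have h2 : ∀ p ∈ P, ∑ k ∈ range L, ∑ q ∈ P,
        c p * conj (c q) * ec (((n p - n q : ℤ) : ℝ) * (k / L)) =
        L * ((‖c p‖ ^ 2 * ((P.filter (fun q => n p = n q)).card : ℝ) : ℝ) : ℂ) := by
      intro p hp
      rw [Finset.sum_comm]
      have h3 : ∀ q ∈ P, ∑ k ∈ range L,
          c p * conj (c q) * ec (((n p - n q : ℤ) : ℝ) * (k / L)) =
          if n p = n q then (L : ℂ) * ((‖c p‖ ^ 2 : ℝ) : ℂ) else 0 := by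
        intro q hq
        rw [← Finset.mul_sum, inv_sum_ec _ _ hL (hn p hp q hq)]
        by_cases h : n p = n q
        · rw [if_pos (by omega), if_pos h, ← hc p hp q hq h, Complex.mul_conj,
            Complex.normSq_eq_norm_sq]
          ring
        · rw [if_neg (by omega), if_neg h, mul_zero]
      rw [Finset.sum_congr rfl h3, ← Finset.sum_filter, Finset.sum_const, nsmul_eq_mul]
      push_cast
      ring
    rw [Finset.sum_congr rfl h2, ← Finset.mul_sum]
    push_cast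
    rfl
  exact_mod_cast hC

variable {X : Type} [MeasurableSpace X]

/-- twisted orbit -/
noncomputable def inv_v (S : Sys X) (f : X → ℂ) (t : ℝ) : ℕ → X → ℂ :=
  fun a x => ec (-(a : ℝ) * t) * f (S.τ a x)

/-- square norms of twisted averages -/
noncomputable def inv_F (S : Sys X) (f : X → ℂ) (M : ℕ) (t : ℝ) : ℝ := S.sq (avg M (inv_v S f t))

lemma inv_v_B1 (S : Sys X) {f : X → ℂ} (hf : B1 f) (t : ℝ) (a : ℕ) : B1 (inv_v S f t a) :=
  (hf.sh S a).cmul (norm_ec _).le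

/-- correlations only depend on the difference -/
lemma inv_dd_shift (S : Sys X) (f : X → ℂ) (a b j : ℤ) :
    S.int (S.dd (a + j) (b + j) f) = S.int (S.dd a b f) := by
  rw [← S.int_sh j (S.dd a b f)]
  congr 1
  funext x
  simp only [Sys.dd, Sys.sh, S.τ_add]

lemma inv_dd_congr (S : Sys X) (f : X → ℂ) {a b a' b' : ℕ} (h : (b : ℤ) - a = b' - a') :
    S.int (S.dd a b f) = S.int (S.dd a' b' f) := by
  rw [← inv_dd_shift S f a b ((a' : ℤ) - a)]
  congr 2 <;> omega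

lemma inv_F_eq (S : Sys X) {f : X → ℂ} (hf : B1 f) (M : ℕ) (t : ℝ) :
    ((inv_F S f M t : ℝ) : ℂ) = ((M : ℂ) ^ 2)⁻¹ * ∑ p ∈ range M ×ˢ range M,
      ec ((((p.2 : ℤ) - p.1 : ℤ) : ℝ) * t) * S.int (S.dd p.1 p.2 f) := by
  rw [inv_F, S.sq_avg (inv_v_B1 S hf t), Finset.sum_product]
  congr 1
  refine Finset.sum_congr rfl fun a _ => Finset.sum_congr rfl fun b _ => ?_
  rw [← S.int_cmul]
  congr 1
  funext x
  simp only [inv_v, Sys.dd, map_mul, ← ec_neg]
  have : ec ((((b : ℤ) - a : ℤ) : ℝ) * t) = ec (-(a : ℝ) * t) * ec (-(-(b : ℝ) * t)) := by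
    rw [← ec_add]
    congr 1
    push_cast
    ring
  rw [this]
  ring

lemma inv_F_nonneg (S : Sys X) (f : X → ℂ) (M : ℕ) (t : ℝ) : 0 ≤ inv_F S f M t := S.sq_nonneg _

/-- the first moment -/
lemma inv_first (S : Sys X) {f : X → ℂ} (hf : B1 f) (M : ℕ) (hM : 0 < M) :
    ∑ k ∈ range (2 * M), inv_F S f M (k / ((2 * M : ℕ) : ℝ)) ≤ 2 := by
  have hM' : (M : ℂ) ≠ 0 := by exact_mod_cast hM.ne'
  have hC : ((∑ k ∈ range (2 * M), inv_F S f M (k / ((2 * M : ℕ) : ℝ)) : ℝ) : ℂ) =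
      ((2 * S.sq f : ℝ) : ℂ) := by
    rw [Complex.ofReal_sum]
    simp only [inv_F_eq S hf]
    rw [← Finset.mul_sum, Finset.sum_comm]
    have h1 : ∀ p ∈ range M ×ˢ range M, ∑ k ∈ range (2 * M),
        ec ((((p.2 : ℤ) - p.1 : ℤ) : ℝ) * (k / ((2 * M : ℕ) : ℝ))) * S.int (S.dd p.1 p.2 f) =
        if p.1 = p.2 then ((2 * M : ℕ) : ℂ) * ((S.sq f : ℝ) : ℂ) else 0 := by
      intro p hp
      obtain ⟨h1, h2⟩ := Finset.mem_product.1 hp
      rw [Finset.mem_range] at h1 h2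
      rw [← Finset.sum_mul, inv_sum_ec _ _ (by omega) (by
        rw [abs_lt]; push_cast; constructor <;> omega)]
      by_cases h : p.1 = p.2
      · rw [if_pos (by omega), if_pos h, ← h, S.sq_eq_int]
        congr 1
        have := S.int_sh p.1 (fun x => f x * conj (f x))
        rw [← this]
        rfl
      · rw [if_neg (by omega), if_neg h, zero_mul]
    rw [Finset.sum_congr rfl h1, Finset.sum_product]
    have h2 : ∀ a ∈ range M, ∑ b ∈ range M,
        (if a = b then ((2 * M : ℕ) : ℂ) * ((S.sq f : ℝ) : ℂ) else 0) =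
        ((2 * M : ℕ) : ℂ) * ((S.sq f : ℝ) : ℂ) := by
      intro a ha
      rw [Finset.sum_ite_eq, if_pos ha]
    rw [Finset.sum_congr rfl h2, Finset.sum_const, card_range, nsmul_eq_mul]
    push_cast
    field_simp
  have hR : ∑ k ∈ range (2 * M), inv_F S f M (k / ((2 * M : ℕ) : ℝ)) = 2 * S.sq f := by
    exact_mod_cast hC
  rw [hR]
  have := S.sq_le_one hf
  linarith

lemma inv_F_sq (S : Sys X) {f : X → ℂ} (hf : B1 f) (M : ℕ) (t : ℝ) :
    (inv_F S f M t) ^ 2 = ((M : ℝ) ^ 4)⁻¹ * ‖∑ p ∈ range M ×ˢ range M,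
      ec ((((p.2 : ℤ) - p.1 : ℤ) : ℝ) * t) * S.int (S.dd p.1 p.2 f)‖ ^ 2 := by
  have h1 : (inv_F S f M t) ^ 2 = ‖((inv_F S f M t : ℝ) : ℂ)‖ ^ 2 := by
    rw [Complex.norm_real, Real.norm_eq_abs, sq_abs]
  rw [h1, inv_F_eq S hf, norm_mul, mul_pow, norm_inv, norm_pow, Complex.norm_natCast]
  congr 1
  rw [inv_pow, ← pow_mul]

/-- the second moment -/
lemma inv_second (S : Sys X) {f : X → ℂ} (hf : B1 f) (M' : ℕ) (hM : 0 < M') :
    S.Sk 1 M' f / 4 ≤ ∑ k ∈ range (2 * (2 * M')),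
      (inv_F S f (2 * M') (k / ((2 * (2 * M') : ℕ) : ℝ))) ^ 2 := by
  set M := 2 * M' with hMM
  simp only [inv_F_sq S hf]
  rw [← Finset.mul_sum, inv_fourier (range M ×ˢ range M) (fun p => (p.2 : ℤ) - p.1)
    (fun p => S.int (S.dd p.1 p.2 f)) (2 * M) (by omega)
    (by
      intro p hp q hq
      obtain ⟨h1, h2⟩ := Finset.mem_product.1 hp
      obtain ⟨h3, h4⟩ := Finset.mem_product.1 hq
      rw [Finset.mem_range] at h1 h2 h3 h4
      rw [abs_lt]; push_cast; constructor <;> omega)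
    (by
      intro p _ q _ h
      exact inv_dd_congr S f h)]
  have hsub : range M' ×ˢ range M' ⊆ range M ×ˢ range M := by
    intro p hp
    rw [Finset.mem_product, Finset.mem_range, Finset.mem_range] at hp ⊢
    omega
  have hcount : ∀ p ∈ range M' ×ˢ range M', (M' : ℝ) ≤
      (((range M ×ˢ range M).filter (fun q => (p.2 : ℤ) - p.1 = (q.2 : ℤ) - q.1)).card : ℝ) := by
    intro p hp
    rw [Finset.mem_product, Finset.mem_range, Finset.mem_range] at hp
    have h1 : (range M').card ≤ ((range M ×ˢ range M).filter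
        (fun q => (p.2 : ℤ) - p.1 = (q.2 : ℤ) - q.1)).card := by
      refine Finset.card_le_card_of_injOn (fun j => (p.1 + j, p.2 + j)) ?_ ?_
      · intro j hj
        have hj' := Finset.mem_range.1 (Finset.mem_coe.1 hj)
        rw [Finset.mem_coe, Finset.mem_filter, Finset.mem_product, Finset.mem_range,
          Finset.mem_range]
        refine ⟨⟨?_, ?_⟩, ?_⟩
        · show p.1 + j < M
          omega
        · show p.2 + j < M
          omega
        · push_cast; ring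
      · intro j _ j' _ h
        simp only [Prod.mk.injEq] at h
        omega
    rw [Finset.card_range] at h1
    exact_mod_cast h1
  have h2 : ∑ p ∈ range M' ×ˢ range M', ‖S.int (S.dd p.1 p.2 f)‖ ^ 2 * (M' : ℝ) ≤
      ∑ p ∈ range M ×ˢ range M, ‖S.int (S.dd p.1 p.2 f)‖ ^ 2 *
      (((range M ×ˢ range M).filter (fun q => (p.2 : ℤ) - p.1 = (q.2 : ℤ) - q.1)).card : ℝ) := by
    refine le_trans (Finset.sum_le_sum fun p hp => ?_)
      (Finset.sum_le_sum_of_subset_of_nonneg hsub fun p _ _ => by positivity)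
    exact mul_le_mul_of_nonneg_left (hcount p hp) (by positivity)
  have h3 : S.Sk 1 M' f = ((M' : ℝ) ^ 2)⁻¹ * ∑ p ∈ range M' ×ˢ range M',
      ‖S.int (S.dd p.1 p.2 f)‖ ^ 2 := by
    rw [Finset.sum_product]
    rfl
  have hM'0 : (0 : ℝ) < M' := by exact_mod_cast hM
  have hM0 : (M : ℝ) = 2 * M' := by rw [hMM]; push_cast; ring
  rw [← Finset.sum_mul] at h2
  calc S.Sk 1 M' f / 4 = ((M : ℝ) ^ 4)⁻¹ * (((2 * M : ℕ) : ℝ) *
        ((∑ p ∈ range M' ×ˢ range M', ‖S.int (S.dd p.1 p.2 f)‖ ^ 2) * M')) := by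
        rw [h3]
        push_cast
        rw [hM0]
        field_simp
        norm_num
    _ ≤ _ := by
        gcongr

/-- the maximum of the Fejer type sums is large -/
lemma inv_exists_t (S : Sys X) {f : X → ℂ} (hf : B1 f) (M' : ℕ) (hM : 0 < M') :
    ∃ t ∈ Set.Icc (0 : ℝ) 1, S.Sk 1 M' f / 8 ≤ inv_F S f (2 * M') t := by
  have h1 := inv_first S hf (2 * M') (by omega)
  have h2 := inv_second S hf M' hM
  obtain ⟨k, hk, hmax⟩ := Finset.exists_max_image (range (2 * (2 * M')))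
    (fun k : ℕ => inv_F S f (2 * M') (k / ((2 * (2 * M') : ℕ) : ℝ)))
    ⟨0, Finset.mem_range.2 (by omega)⟩
  refine ⟨k / ((2 * (2 * M') : ℕ) : ℝ), ⟨by positivity, ?_⟩, ?_⟩
  · rw [div_le_one (by positivity)]
    exact_mod_cast (Finset.mem_range.1 hk).le
  · set G : ℕ → ℝ := fun k => inv_F S f (2 * M') (k / ((2 * (2 * M') : ℕ) : ℝ)) with hG
    have hG0 : ∀ k, 0 ≤ G k := fun k => inv_F_nonneg _ _ _ _
    have h3 : ∑ j ∈ range (2 * (2 * M')), G j ^ 2 ≤ G k * ∑ j ∈ range (2 * (2 * M')), G j := by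
      rw [Finset.mul_sum]
      refine Finset.sum_le_sum fun j hj => ?_
      rw [sq]
      exact mul_le_mul_of_nonneg_right (hmax j hj) (hG0 j)
    have h4 : G k * ∑ j ∈ range (2 * (2 * M')), G j ≤ G k * 2 :=
      mul_le_mul_of_nonneg_left h1 (hG0 k)
    show S.Sk 1 M' f / 8 ≤ G k
    have h5 : S.Sk 1 M' f / 4 ≤ G k * 2 := h2.trans (h3.trans h4)
    linarith

/-! ### monotonicity and continuity -/

lemma inv_F_two_mul (S : Sys X) {f : X → ℂ} (hf : B1 f) (M : ℕ) (t : ℝ) :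
    inv_F S f (2 * M) t ≤ inv_F S f M t := by
  set v := inv_v S f t with hv
  have hvB : ∀ a, B1 (v a) := fun a => inv_v_B1 S hf t a
  set w : ℕ → X → ℂ := fun h => if h = 0 then avg M v else
    fun x => ec (-(M : ℝ) * t) * S.sh M (avg M v) x with hw
  have hwB : ∀ h, B1 (w h) := by
    intro h
    simp only [hw]
    split_ifs
    · exact B1.avg hvB M
    · exact ((B1.avg hvB M).sh S M).cmul (norm_ec _).le
  have e : avg (2 * M) v = avg 2 w := by
    funext x
    have h2 : ∀ a, v (M + a) x = ec (-(M : ℝ) * t) * v a (S.τ M x) := by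
      intro a
      simp only [hv, inv_v]
      have h3 : S.τ ((M + a : ℕ) : ℤ) x = S.τ a (S.τ M x) := by
        rw [← S.τ_add]
        congr 1
        push_cast
        ring
      have h4 : ec (-((M + a : ℕ) : ℝ) * t) = ec (-(M : ℝ) * t) * ec (-(a : ℝ) * t) := by
        rw [← ec_add]
        congr 1
        push_cast
        ring
      rw [h3, h4]
      ring
    simp only [avg, hw, Sys.sh, Finset.sum_range_succ, Finset.sum_range_zero, zero_add,
      if_true, one_ne_zero, if_false]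
    rw [two_mul, Finset.sum_range_add]
    simp only [h2]
    rw [← Finset.mul_sum]
    push_cast
    rw [← two_mul, mul_inv]
    ring
  rw [inv_F, e]
  refine (S.sq_avg_le hwB 2).trans ?_
  have h0 : S.sq (w 0) = inv_F S f M t := by
    simp only [hw, if_true]
    rfl
  have h1 : S.sq (w 1) = inv_F S f M t := by
    simp only [hw, one_ne_zero, if_false]
    have : S.sq (fun x => ec (-(M : ℝ) * t) * S.sh M (avg M v) x) = S.sq (S.sh M (avg M v)) := by
      unfold Sys.sq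
      congr 1
      funext x
      rw [norm_mul, norm_ec, one_mul]
    rw [this, S.sq_sh]
    rfl
  rw [Finset.sum_range_succ, Finset.sum_range_one, h0, h1]
  push_cast
  linarith

lemma inv_ec_continuous : Continuous ec := by
  unfold ec
  fun_prop

lemma inv_F_continuous (S : Sys X) {f : X → ℂ} (hf : B1 f) (M : ℕ) :
    Continuous (inv_F S f M) := by
  have h1 : inv_F S f M = fun t => (((M : ℂ) ^ 2)⁻¹ * ∑ p ∈ range M ×ˢ range M,
      ec ((((p.2 : ℤ) - p.1 : ℤ) : ℝ) * t) * S.int (S.dd p.1 p.2 f)).re := by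
    funext t
    rw [← inv_F_eq S hf, Complex.ofReal_re]
  rw [h1]
  refine Complex.continuous_re.comp (continuous_const.mul (continuous_finsetSum _ fun p _ => ?_))
  exact (inv_ec_continuous.comp (continuous_const.mul continuous_id)).mul continuous_const

/-- one frequency which is good at all scales -/
lemma inv_common (S : Sys X) {f : X → ℂ} (hf : B1 f) (c : ℝ) (h : c ≤ S.nu2 f) :
    ∃ t : ℝ, ∀ r : ℕ, c / 8 ≤ inv_F S f (2 ^ (r + 1)) t := by
  have hSk : ∀ r, c ≤ S.Sk 1 (2 ^ r) f := by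
    intro r
    refine h.trans (ciInf_le ⟨0, ?_⟩ r)
    rintro _ ⟨r, rfl⟩
    show 0 ≤ (((2 ^ r : ℕ) : ℝ) ^ 2)⁻¹ * ∑ a ∈ range (2 ^ r), ∑ b ∈ range (2 ^ r),
      ‖S.int (S.dd a b f)‖ ^ 2
    positivity
  set C : ℕ → Set ℝ := fun r => Set.Icc 0 1 ∩ {t | c / 8 ≤ inv_F S f (2 ^ (r + 1)) t} with hC
  have hcl : ∀ r, IsClosed (C r) := fun r =>
    isClosed_Icc.inter (isClosed_le continuous_const (inv_F_continuous S hf _))
  have hne : ∀ r, (C r).Nonempty := by
    intro r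
    obtain ⟨t, ht, h2⟩ := inv_exists_t S hf (2 ^ r) (by positivity)
    refine ⟨t, ht, ?_⟩
    show c / 8 ≤ inv_F S f (2 ^ (r + 1)) t
    rw [pow_succ']
    refine le_trans ?_ h2
    have := hSk r
    linarith
  have hanti : ∀ r, C (r + 1) ⊆ C r := by
    rintro r t ⟨h1, h2⟩
    refine ⟨h1, ?_⟩
    show c / 8 ≤ inv_F S f (2 ^ (r + 1)) t
    refine le_trans h2 ?_
    rw [pow_succ' 2 (r + 1)]
    exact inv_F_two_mul S hf _ t
  obtain ⟨t, ht⟩ := IsCompact.nonempty_iInter_of_sequence_nonempty_isCompact_isClosed C hanti hne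
    (isCompact_Icc.inter_right (isClosed_le continuous_const (inv_F_continuous S hf _))) hcl
  refine ⟨t, fun r => ?_⟩
  exact (Set.mem_iInter.1 ht r).2

/-! ### the mean ergodic theorem -/

/-- the Koopman operator -/
noncomputable def inv_U (S : Sys X) : Lp ℂ 2 S.μ →ₗᵢ[ℂ] Lp ℂ 2 S.μ :=
  Lp.compMeasurePreservingₗᵢ ℂ (S.τ 1) (S.mp 1)

/-- the twisted Koopman operator -/
noncomputable def inv_V (S : Sys X) (t : ℝ) : Lp ℂ 2 S.μ →L[ℂ] Lp ℂ 2 S.μ :=
  ec (-t) • (inv_U S).toContinuousLinearMap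

lemma inv_V_norm (S : Sys X) (t : ℝ) : ‖inv_V S t‖ ≤ 1 := by
  refine ContinuousLinearMap.opNorm_le_bound _ zero_le_one fun x => ?_
  rw [inv_V, _root_.smul_apply, norm_smul, norm_ec, one_mul, one_mul,
    LinearIsometry.coe_toContinuousLinearMap, LinearIsometry.norm_map]

lemma inv_V_coe (S : Sys X) (t : ℝ) (G : Lp ℂ 2 S.μ) :
    ⇑(inv_V S t G) =ᵐ[S.μ] fun x => ec (-t) * G (S.τ 1 x) := by
  have h1 : inv_V S t G = ec (-t) • (inv_U S G) := rfl
  rw [h1]
  have h2 := Lp.coeFn_compMeasurePreserving G (S.mp 1)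
  filter_upwards [Lp.coeFn_smul (ec (-t)) (inv_U S G), h2] with x hx hx2
  rw [hx, Pi.smul_apply, smul_eq_mul]
  congr 1

lemma inv_memLp (S : Sys X) {f : X → ℂ} (hf : B1 f) : MemLp f 2 S.μ :=
  MemLp.of_bound hf.1.aestronglyMeasurable 1 (Filter.Eventually.of_forall hf.2)

lemma inv_iterate (S : Sys X) {f : X → ℂ} (hf : B1 f) (t : ℝ) (a : ℕ) :
    ⇑((inv_V S t)^[a] ((inv_memLp S hf).toLp f)) =ᵐ[S.μ] inv_v S f t a := by
  induction a with
  | zero =>
    simp only [Function.iterate_zero, id_eq]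
    filter_upwards [(inv_memLp S hf).coeFn_toLp] with x hx
    rw [hx]
    simp [inv_v, ec_zero, S.τ_zero]
  | succ a ih =>
    rw [Function.iterate_succ_apply']
    filter_upwards [inv_V_coe S t ((inv_V S t)^[a] ((inv_memLp S hf).toLp f)), S.ae_sh 1 ih]
      with x h1 h2
    rw [h1, h2]
    simp only [inv_v]
    have h3 : S.τ ((a + 1 : ℕ) : ℤ) x = S.τ a (S.τ 1 x) := by
      rw [← S.τ_add]
      congr 1
    have h4 : ec (-((a + 1 : ℕ) : ℝ) * t) = ec (-t) * ec (-(a : ℝ) * t) := by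
      rw [← ec_add]
      congr 1
      push_cast
      ring
    rw [h3, h4]
    ring

lemma inv_birkhoff (S : Sys X) {f : X → ℂ} (hf : B1 f) (t : ℝ) (M : ℕ) :
    ⇑(birkhoffAverage ℂ (inv_V S t) _root_.id M ((inv_memLp S hf).toLp f)) =ᵐ[S.μ]
      avg M (inv_v S f t) := by
  rw [birkhoffAverage, birkhoffSum]
  have h1 : ∀ s : Finset ℕ, ⇑(∑ k ∈ s, _root_.id ((inv_V S t)^[k] ((inv_memLp S hf).toLp f)))
      =ᵐ[S.μ] fun x => ∑ k ∈ s, inv_v S f t k x := by
    intro s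
    induction s using Finset.induction_on with
    | empty =>
      simp only [Finset.sum_empty]
      exact Lp.coeFn_zero _ _ _
    | insert k s hk ih =>
      rw [Finset.sum_insert hk]
      filter_upwards [Lp.coeFn_add (_root_.id ((inv_V S t)^[k] ((inv_memLp S hf).toLp f)))
        (∑ k ∈ s, _root_.id ((inv_V S t)^[k] ((inv_memLp S hf).toLp f))), ih,
        inv_iterate S hf t k] with x h1 h2 h3
      rw [h1, Pi.add_apply, h2, Finset.sum_insert hk]
      congr 1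
  filter_upwards [Lp.coeFn_smul ((M : ℂ)⁻¹)
    (∑ k ∈ range M, _root_.id ((inv_V S t)^[k] ((inv_memLp S hf).toLp f))), h1 (range M)]
    with x h2 h3
  rw [h2, Pi.smul_apply, h3, smul_eq_mul]
  rfl

lemma inv_norm_sq (S : Sys X) (G : Lp ℂ 2 S.μ) : ‖G‖ ^ 2 = ∫ x, ‖G x‖ ^ 2 ∂S.μ := by
  have h1 : ‖G‖ ^ 2 = RCLike.re (inner ℂ G G) := (inner_self_eq_norm_sq (𝕜 := ℂ) G).symm
  rw [h1, MeasureTheory.L2.inner_def, ← integral_re (L2.integrable_inner (𝕜 := ℂ) G G)]
  congr 1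
  funext x
  exact inner_self_eq_norm_sq (𝕜 := ℂ) (G x)

lemma inv_birkhoff_norm (S : Sys X) {f : X → ℂ} (hf : B1 f) (t : ℝ) (M : ℕ) :
    ‖birkhoffAverage ℂ (inv_V S t) _root_.id M ((inv_memLp S hf).toLp f)‖ ^ 2 =
      inv_F S f M t := by
  rw [inv_norm_sq, inv_F, Sys.sq]
  refine integral_congr_ae ?_
  filter_upwards [inv_birkhoff S hf t M] with x hx
  rw [hx]

/-- the spectral projection of `f` -/
lemma inv_proj (S : Sys X) {f : X → ℂ} (hf : B1 f) (t c : ℝ)
    (h : ∀ r : ℕ, c / 8 ≤ inv_F S f (2 ^ (r + 1)) t) :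
    ∃ G : Lp ℂ 2 S.μ, c / 8 ≤ ‖G‖ ^ 2 ∧ inv_V S t G = G ∧
      inner ℂ G ((inv_memLp S hf).toLp f) = ((‖G‖ ^ 2 : ℝ) : ℂ) := by
  set Φ := (inv_memLp S hf).toLp f with hΦ
  set E := (inv_V S t).eqLocus (1 : Lp ℂ 2 S.μ →L[ℂ] Lp ℂ 2 S.μ) with hE
  have hlim := (inv_V S t).tendsto_birkhoffAverage_orthogonalProjection (inv_V_norm S t) Φ
  set G : Lp ℂ 2 S.μ := (E.orthogonalProjectionOnto Φ : Lp ℂ 2 S.μ) with hG
  refine ⟨G, ?_, ?_, ?_⟩
  · have h1 : Tendsto (fun r : ℕ => 2 ^ (r + 1)) atTop (atTop : Filter ℕ) :=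
      (tendsto_pow_atTop_atTop_of_one_lt (by norm_num)).comp (tendsto_add_atTop_nat 1)
    have h2 : Tendsto (fun r : ℕ => ‖birkhoffAverage ℂ (inv_V S t) _root_.id (2 ^ (r + 1)) Φ‖ ^ 2)
        atTop (𝓝 (‖G‖ ^ 2)) := ((hlim.comp h1).norm).pow 2
    refine ge_of_tendsto h2 (Eventually.of_forall fun r => ?_)
    rw [inv_birkhoff_norm S hf]
    exact h r
  · have : G ∈ E := (E.orthogonalProjectionOnto Φ).2
    exact this
  · have h1 : inner ℂ G (Φ - G) = 0 := by
      exact Submodule.inner_right_of_mem_orthogonal (E.orthogonalProjectionOnto Φ).2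
        (E.sub_starProjection_mem_orthogonal Φ)
    rw [inner_sub_right, sub_eq_zero] at h1
    rw [h1, inner_self_eq_norm_sq_to_K]
    push_cast
    rfl

/-- REC-3 -/
theorem inverse (S : Sys X) (f : X → ℂ) (hf : B1 f) (c : ℝ) (hc : 0 < c) (h : c ≤ S.nu2 f) :
    ∃ (t : ℝ) (χ : X → ℂ), S.Eig t χ ∧ c / 8 ≤ ‖S.int (fun x => f x * conj (χ x))‖ ^ 2 := by
  obtain ⟨t, ht⟩ := inv_common S hf c h
  obtain ⟨G, hG1, hG2, hG3⟩ := inv_proj S hf t c ht
  -- a measurable representative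
  set ψ : X → ℂ := (Lp.aestronglyMeasurable G).mk G with hψ
  have hψm : Measurable ψ := (Lp.aestronglyMeasurable G).stronglyMeasurable_mk.measurable
  have hψG : ⇑G =ᵐ[S.μ] ψ := (Lp.aestronglyMeasurable G).ae_eq_mk
  have hψT : ∀ᵐ x ∂S.μ, ψ (S.τ 1 x) = ec t * ψ x := by
    have h1 := inv_V_coe S t G
    rw [hG2] at h1
    filter_upwards [h1, hψG, S.ae_sh 1 hψG] with x h1 h2 h3
    rw [← h3, ← h2, h1, ← mul_assoc, ← ec_add]
    simp [ec_zero]
  have herg : Ergodic (S.τ 1) S.μ := by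
    refine ⟨S.mp 1, ⟨fun s hs hs' => ?_⟩⟩
    rcases S.erg s hs hs' with h0 | h0
    · rw [Filter.eventuallyConst_set']
      left
      exact ae_eq_empty.2 h0
    · rw [Filter.eventuallyConst_set']
      right
      exact ae_eq_univ.2 h0
  obtain ⟨κ, hκ⟩ : ∃ κ : ℝ, (fun x => ‖ψ x‖) =ᵐ[S.μ] fun _ => κ := by
    refine herg.ae_eq_const_of_ae_eq_comp₀ hψm.norm.nullMeasurable ?_
    filter_upwards [hψT] with x hx
    show ‖ψ (S.τ 1 x)‖ = ‖ψ x‖
    rw [hx, norm_mul, norm_ec, one_mul]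
  have hnG : ‖G‖ ^ 2 = κ ^ 2 := by
    rw [inv_norm_sq]
    have : ∫ x, ‖G x‖ ^ 2 ∂S.μ = ∫ _, κ ^ 2 ∂S.μ := by
      refine integral_congr_ae ?_
      filter_upwards [hψG, hκ] with x h1 h2
      rw [h1, h2]
    rw [this]
    simp
  have hκ0 : 0 ≤ κ := by
    have h1 : ∃ x, ‖ψ x‖ = κ := by
      have : (∀ᵐ x ∂S.μ, ‖ψ x‖ = κ) := hκ
      exact this.exists
    obtain ⟨x, hx⟩ := h1
    rw [← hx]
    exact norm_nonneg _
  have hκpos : 0 < κ := by
    rcases hκ0.eq_or_lt with h0 | h0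
    · rw [hnG, ← h0] at hG1
      norm_num at hG1
      linarith
    · exact h0
  classical
  set A : Set X := {x | ‖ψ x‖ = κ} with hA
  have hAm : MeasurableSet A := hψm.norm (measurableSet_singleton κ)
  set χ : X → ℂ := A.indicator (fun x => (κ : ℂ)⁻¹ * ψ x) with hχ
  have hχval : ∀ x, ‖ψ x‖ = κ → χ x = (κ : ℂ)⁻¹ * ψ x := fun x hx =>
    Set.indicator_of_mem (show x ∈ A from hx) _
  have hκn : ‖(κ : ℂ)⁻¹‖ = κ⁻¹ := by
    rw [norm_inv, Complex.norm_real, Real.norm_eq_abs, abs_of_pos hκpos]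
  have hχ1 : ∀ x, ‖ψ x‖ = κ → ‖χ x‖ = 1 := by
    intro x hx
    rw [hχval x hx, norm_mul, hκn, hx, inv_mul_cancel₀ hκpos.ne']
  have hχB : B1 χ := by
    refine ⟨(measurable_const.mul hψm).indicator hAm, fun x => ?_⟩
    by_cases hx : ‖ψ x‖ = κ
    · exact (hχ1 x hx).le
    · have : χ x = 0 := Set.indicator_of_notMem (show x ∉ A from hx) _
      rw [this, norm_zero]
      exact zero_le_one
  refine ⟨t, χ, ⟨hχB, ?_, ?_⟩, ?_⟩
  · filter_upwards [hκ] with x hx
    exact hχ1 x hx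
  · filter_upwards [hκ, S.ae_sh 1 hκ, hψT] with x h1 h2 h3
    rw [hχval _ h2, hχval _ h1, h3]
    ring
  · have h1 : S.int (fun x => f x * conj (χ x)) = (κ : ℂ) := by
      have h2 : inner ℂ G ((inv_memLp S hf).toLp f) = ∫ x, f x * conj (ψ x) ∂S.μ := by
        rw [MeasureTheory.L2.inner_def]
        refine integral_congr_ae ?_
        filter_upwards [hψG, (inv_memLp S hf).coeFn_toLp] with x hx1 hx2
        rw [hx1, hx2]
        rfl
      have h3 : S.int (fun x => f x * conj (χ x)) = (κ : ℂ)⁻¹ * ∫ x, f x * conj (ψ x) ∂S.μ := by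
        rw [Sys.int, ← integral_const_mul]
        refine integral_congr_ae ?_
        filter_upwards [hκ] with x hx
        rw [hχval x hx, map_mul, map_inv₀, Complex.conj_ofReal]
        ring
      rw [h3, ← h2, hG3, hnG]
      have hκC : (κ : ℂ) ≠ 0 := by exact_mod_cast hκpos.ne'
      push_cast
      field_simp
    rw [h1, Complex.norm_real, Real.norm_eq_abs, sq_abs, ← hnG]
    exact hG1

end Pool.Agent.Helper50.Rec
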